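import Pool.Agent.W523.LV.Stmts2

/-!
# LV-RAMP: a forcing in a cell with prescribed values at the end points
-/

set_option autoImplicit false

open Finset

namespace Pool.Agent.W55.LV

open Pool.Agent.W523.LV
open Pool.Agent.H96R3.BC (vv UU CC mem_CC)

/-- trapezoid weight -/
noncomputable def WW (Lip a b len : ℝ) (n : ℕ) : ℝ :=
  min 1 (max 0 (Lip * (min ((n : ℝ) - a) (b - n)) / len))

lemma WW_nonneg (Lip a b len : ℝ) (n : ℕ) : 0 ≤ WW Lip a b len n :=
  le_min zero_le_one (le_max_left _ _)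

lemma WW_le_one (Lip a b len : ℝ) (n : ℕ) : WW Lip a b len n ≤ 1 := min_le_left _ _

lemma WW_lip {Lip a b len : ℝ} (hL : 0 ≤ Lip) (hlen : 0 < len) (n k : ℕ) :
    |WW Lip a b len n - WW Lip a b len k| ≤ Lip * |(n : ℝ) - k| / len := by
  have hr : 0 ≤ Lip * |(n : ℝ) - k| / len := by positivity
  unfold WW
  have h3 := abs_min_sub_min_le_max ((n : ℝ) - a) (b - n) ((k : ℝ) - a) (b - k)
  have e1 : (n : ℝ) - a - (k - a) = n - k := by ring
  have e2 : b - (n : ℝ) - (b - k) = -(n - k) := by ring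
  rw [e1, e2, abs_neg, max_self] at h3
  have h2 := abs_max_sub_max_le_max (0 : ℝ) (Lip * (min ((n : ℝ) - a) (b - n)) / len) 0
    (Lip * (min ((k : ℝ) - a) (b - k)) / len)
  have h1 := abs_min_sub_min_le_max (1 : ℝ) (max 0 (Lip * (min ((n : ℝ) - a) (b - n)) / len)) 1
    (max 0 (Lip * (min ((k : ℝ) - a) (b - k)) / len))
  have h4 : |Lip * (min ((n : ℝ) - a) (b - n)) / len - Lip * (min ((k : ℝ) - a) (b - k)) / len| ≤
      Lip * |(n : ℝ) - k| / len := by
    rw [← sub_div, ← mul_sub, abs_div, abs_mul, abs_of_nonneg hL, abs_of_pos hlen]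
    gcongr
  rw [sub_self, abs_zero] at h1 h2
  exact h1.trans (max_le hr (h2.trans (max_le hr h4)))

lemma WW_left {Lip a b len : ℝ} (hL : 0 ≤ Lip) (hlen : 0 < len) {n : ℕ} (hn : (n : ℝ) = a) :
    WW Lip a b len n = 0 := by
  unfold WW
  have h1 : min ((n : ℝ) - a) (b - n) ≤ 0 := (min_le_left _ _).trans (by rw [hn]; simp)
  have h2 : Lip * (min ((n : ℝ) - a) (b - n)) / len ≤ 0 := by
    apply div_nonpos_of_nonpos_of_nonneg _ hlen.le
    exact mul_nonpos_of_nonneg_of_nonpos hL h1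
  rw [max_eq_left h2]; simp

lemma WW_right {Lip a b len : ℝ} (hL : 0 ≤ Lip) (hlen : 0 < len) {n : ℕ} (hn : (n : ℝ) = b) :
    WW Lip a b len n = 0 := by
  unfold WW
  have h1 : min ((n : ℝ) - a) (b - n) ≤ 0 := (min_le_right _ _).trans (by rw [hn]; simp)
  have h2 : Lip * (min ((n : ℝ) - a) (b - n)) / len ≤ 0 := by
    apply div_nonpos_of_nonpos_of_nonneg _ hlen.le
    exact mul_nonpos_of_nonneg_of_nonpos hL h1
  rw [max_eq_left h2]; simp

/-- the weight is at least `1/2` for most integers of a long interval -/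
lemma WW_count {q : ℝ} (hq : 1 ≤ q) {a b : ℕ} {len : ℝ} (hlen : 512 * q ≤ len)
    (x y : ℕ) (hx : a ≤ x) (hy : y ≤ b) (hxy : x < y) (h : len ≤ 32 * q * ((y : ℝ) - x)) :
    ((y : ℝ) - x) ≤ 2 * (((Ico x y).filter (fun n => 1 / 2 ≤ WW (256 * q) a b len n)).card : ℝ) := by
  have hlen0 : 0 < len := by nlinarith
  set D : ℝ := len / (512 * q) with hD
  have hD1 : 1 ≤ D := by rw [hD, le_div_iff₀ (by positivity)]; linarith
  have hlenD : len = D * (512 * q) := by rw [hD]; field_simp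
  have hyx : 16 * D ≤ (y : ℝ) - x := by
    have : D * (512 * q) ≤ 32 * q * ((y : ℝ) - x) := by rw [← hlenD]; exact h
    have h32 : 0 < 32 * q := by positivity
    nlinarith [mul_le_mul_of_nonneg_left this (le_of_lt (inv_pos.mpr h32)), inv_mul_cancel₀ h32.ne',
      mul_comm (32 * q)⁻¹ (32 * q)]
  set c : ℕ := ⌈D⌉₊ with hc
  have hcD : (c : ℝ) ≤ D + 1 := (Nat.ceil_lt_add_one (by linarith)).le
  have hDc : D ≤ c := Nat.le_ceil D
  -- bad integers
  have hbad : (Ico x y).filter (fun n => ¬ 1 / 2 ≤ WW (256 * q) a b len n) ⊆ Ico a (a + c) ∪ Ico (b - c) b := by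
    intro n hn
    rw [mem_filter, mem_Ico] at hn
    obtain ⟨⟨h1, h2⟩, h3⟩ := hn
    rw [mem_union, mem_Ico, mem_Ico]
    by_contra hcon
    rw [not_or] at hcon
    obtain ⟨g1, g2⟩ := hcon
    apply h3
    have e1 : a + c ≤ n := by
      by_contra hh
      exact g1 ⟨by omega, by omega⟩
    have e2 : n < b - c := by
      by_contra hh
      exact g2 ⟨by omega, by omega⟩
    have e1' : (a : ℝ) + c ≤ n := by exact_mod_cast e1
    have e2' : (n : ℝ) + c ≤ b := by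
      have : n + c ≤ b := by omega
      exact_mod_cast this
    unfold WW
    refine le_min (by norm_num) (le_trans ?_ (le_max_right _ _))
    have hmin : D ≤ min ((n : ℝ) - a) (b - n) := le_min (by linarith) (by linarith)
    rw [le_div_iff₀ hlen0]
    have : 256 * q * D ≤ 256 * q * min ((n : ℝ) - a) (b - n) := by gcongr
    nlinarith
  have hcardbad : (((Ico x y).filter (fun n => ¬ 1 / 2 ≤ WW (256 * q) a b len n)).card : ℝ) ≤ 2 * (D + 1) := by
    have h1 := card_le_card hbad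
    have h2 := card_union_le (Ico a (a + c)) (Ico (b - c) b)
    rw [Nat.card_Ico, Nat.card_Ico] at h2
    have h3 : ((Ico x y).filter (fun n => ¬ 1 / 2 ≤ WW (256 * q) a b len n)).card ≤ 2 * c := by omega
    have h4 : (((Ico x y).filter (fun n => ¬ 1 / 2 ≤ WW (256 * q) a b len n)).card : ℝ) ≤ 2 * c := by
      exact_mod_cast h3
    linarith
  have htot := card_filter_add_card_filter_not (s := Ico x y) (fun n => 1 / 2 ≤ WW (256 * q) a b len n)
  rw [Nat.card_Ico] at htot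
  have htot' : (((Ico x y).filter (fun n => 1 / 2 ≤ WW (256 * q) a b len n)).card : ℝ) +
      (((Ico x y).filter (fun n => ¬ 1 / 2 ≤ WW (256 * q) a b len n)).card : ℝ) = (y : ℝ) - x := by
    have h5 : ((y - x : ℕ) : ℝ) = (y : ℝ) - x := by
      rw [Nat.cast_sub hxy.le]
    rw [← h5]
    exact_mod_cast htot
  linarith

lemma CC_card (Q j : ℕ) : ((CC Q j).card : ℝ) = (((j + 1) ^ (2 * Q) : ℕ) : ℝ) - ((j ^ (2 * Q) : ℕ) : ℝ) := by
  unfold CC
  rw [Nat.card_Ioc, Nat.cast_sub (Nat.pow_le_pow_left (by omega) _)]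

lemma pow_diff_mono {x y : ℝ} (hx : 0 ≤ x) (hxy : x ≤ y) (k : ℕ) :
    0 ≤ (x + 1) ^ k - x ^ k ∧ (x + 1) ^ k - x ^ k ≤ (y + 1) ^ k - y ^ k := by
  induction k with
  | zero => simp
  | succ k ih =>
    obtain ⟨h0, h1⟩ := ih
    have e1 : (x + 1) ^ (k + 1) - x ^ (k + 1) = (x + 1) * ((x + 1) ^ k - x ^ k) + x ^ k := by ring
    have e2 : (y + 1) ^ (k + 1) - y ^ (k + 1) = (y + 1) * ((y + 1) ^ k - y ^ k) + y ^ k := by ring
    rw [e1, e2]
    have h2 : x ^ k ≤ y ^ k := pow_le_pow_left₀ hx hxy k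
    constructor
    · positivity
    · have : (x + 1) * ((x + 1) ^ k - x ^ k) ≤ (y + 1) * ((y + 1) ^ k - y ^ k) :=
        mul_le_mul (by linarith) h1 h0 (by linarith)
      linarith

lemma CC_card_mono {Q i j : ℕ} (h : i ≤ j) : ((CC Q i).card : ℝ) ≤ (CC Q j).card := by
  rw [CC_card, CC_card]
  push_cast
  exact (pow_diff_mono (Nat.cast_nonneg i) (by exact_mod_cast h) (2 * Q)).2

lemma le_CC_card {Q j : ℕ} (hQ : 1 ≤ Q) (hj : 1 ≤ j) : (j : ℝ) ≤ (CC Q j).card := by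
  rw [CC_card]
  have h1 : j ^ (2 * Q) + j ≤ (j + 1) ^ (2 * Q) := by
    obtain ⟨k, rfl⟩ : ∃ k, Q = k + 1 := ⟨Q - 1, by omega⟩
    have e : 2 * (k + 1) = (2 * k + 1) + 1 := by ring
    rw [e, pow_succ (j + 1) (2 * k + 1), pow_succ j (2 * k + 1)]
    have h2 : j ^ (2 * k + 1) ≤ (j + 1) ^ (2 * k + 1) := Nat.pow_le_pow_left (by omega) _
    have h3 : j ≤ (j + 1) ^ (2 * k + 1) := (Nat.le_succ j).trans (Nat.le_self_pow (by omega) _)
    nlinarith
  have : ((j ^ (2 * Q) : ℕ) : ℝ) + j ≤ (((j + 1) ^ (2 * Q) : ℕ) : ℝ) := by exact_mod_cast h1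
  linarith

lemma b_mono {b : ℕ → ℕ} {L : ℕ} (h : ∀ i, i < L → b i < b (i + 1)) {i j : ℕ} (hij : i ≤ j) (hj : j ≤ L) :
    b i ≤ b j := by
  induction j with
  | zero =>
    have : i = 0 := by omega
    rw [this]
  | succ j ih =>
    rcases Nat.lt_or_ge i (j + 1) with h1 | h1
    · exact (ih (by omega) (by omega)).trans (h j (by omega)).le
    · have : i = j + 1 := by omega
      rw [this]

lemma exists_block {b : ℕ → ℕ} {L n : ℕ} (h0 : b 0 ≤ n) (hL : n < b L) :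
    ∃ i, i < L ∧ b i ≤ n ∧ n < b (i + 1) := by
  induction L with
  | zero => omega
  | succ L ih =>
    by_cases h : n < b L
    · obtain ⟨i, h1, h2⟩ := ih h
      exact ⟨i, by omega, h2⟩
    · exact ⟨L, by omega, by omega, hL⟩

/-- value of a block forcing -/
lemma blk_bound {b : ℕ → ℕ} {L : ℕ} (h : ∀ i, i < L → b i < b (i + 1)) (m : ℕ → ℝ) (B : ℝ) (hB : 0 ≤ B)
    (hb : ∀ i, i < L → |(m (b (i + 1)) - m (b i)) / (((Ioc (b i) (b (i + 1))).filter Nat.Prime).card : ℝ)| ≤ B)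
    (n : ℕ) : |blk b L m n| ≤ B := by
  unfold blk
  by_cases hn : ∃ i, i < L ∧ (n.Prime ∧ b i < n ∧ n ≤ b (i + 1))
  · obtain ⟨i, hi, hc⟩ := hn
    rw [sum_eq_single i, if_pos hc]
    · exact hb i hi
    · intro j hj hne
      rw [mem_range] at hj
      rw [if_neg]
      rintro ⟨_, h1, h2⟩
      rcases Nat.lt_or_gt_of_ne hne with h3 | h3
      · have := b_mono h (show j + 1 ≤ i by omega) hi.le
        omega
      · have := b_mono h (show i + 1 ≤ j by omega) hj.le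
        omega
    · intro hh
      exact absurd (mem_range.mpr hi) hh
  · rw [sum_eq_zero]
    · simpa using hB
    · intro i hi
      rw [if_neg]
      exact fun hc => hn ⟨i, mem_range.mp hi, hc⟩

lemma conv_bound {x y lam θ : ℝ} (hx : |x| ≤ lam) (hy : |y| ≤ lam) (h0 : 0 ≤ θ) (h1 : θ ≤ 1) :
    |(1 - θ) * x + θ * y| ≤ lam := by
  rw [abs_le] at hx hy ⊢
  constructor <;> nlinarith

lemma lin_bound {x y lam θ : ℝ} (hx : |x| ≤ lam) (hy : |y| ≤ lam) (h0 : 0 ≤ θ) (h1 : θ ≤ 1) :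
    |x + (y - x) * θ| ≤ lam := by
  have : x + (y - x) * θ = (1 - θ) * x + θ * y := by ring
  rw [this]
  exact conv_bound hx hy h0 h1

theorem taskRamp (h1 : TaskPart) (h2 : TaskCell) (h4 : TaskAbel) (h5 : TaskGrid) : TaskRamp := by
  obtain ⟨Q₀, hPart⟩ := h1
  refine ⟨max Q₀ 1, fun Q hQ δ₁ δ hδ1 hδ => ?_⟩
  have hQ0 : Q₀ ≤ Q := le_trans (le_max_left _ _) hQ
  have hQ1 : 1 ≤ Q := le_trans (le_max_right _ _) hQ
  have hQR : (1 : ℝ) ≤ Q := by exact_mod_cast hQ1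
  obtain ⟨C, hC, hCell⟩ := h2 Q hQ1
  set q : ℝ := 4 * (Q : ℝ) + 4 with hq
  have hq1 : 1 ≤ q := by rw [hq]; linarith
  obtain ⟨ε₀, hε₀, J₁, hCell'⟩ := hCell (256 * q) (by positivity)
  set η : ℝ := min (1 / 100) ((δ - δ₁) / 3) with hη
  have hη0 : 0 < η := lt_min (by norm_num) (by linarith)
  have hη1 : η ≤ (δ - δ₁) / 3 := min_le_right _ _
  have hη2 : η ≤ 1 / 100 := min_le_left _ _
  obtain ⟨J₂, hPart'⟩ := hPart Q hQ0 1 le_rfl η ε₀ hη0 hη2 hε₀
  obtain ⟨C', hC', J₃, hGrid⟩ := h5 Q hQ1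
  set K : ℝ := 2 + C * (256 * q) + 2 * q * C with hK
  have hK0 : 0 < K := by positivity
  have htend : Filter.Tendsto (fun R : ℕ => ((R : ℝ) ^ (2 * Q)) ^ ((δ - δ₁) / 2)) Filter.atTop Filter.atTop :=
    (tendsto_rpow_atTop (by linarith)).comp
      ((Filter.tendsto_pow_atTop (by omega)).comp tendsto_natCast_atTop_atTop)
  obtain ⟨R₁, hR₁⟩ := Filter.eventually_atTop.1 (htend.eventually_ge_atTop (2 * K))
  refine ⟨max (max (max J₁ J₂) (max J₃ R₁)) (max (⌈512 * q⌉₊ + 1) ⌈C'⌉₊), fun R hR J hRJ hJ j₀ hj1 hjR α β hα hβ => ?_⟩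
  have hRJ₁ : J₁ ≤ R := by omega
  have hRJ₂ : J₂ ≤ R := by omega
  have hRJ₃ : J₃ ≤ R := by omega
  have hRR₁ : R₁ ≤ R := by omega
  have hRq : ⌈512 * q⌉₊ + 1 ≤ R := by omega
  have hRC : ⌈C'⌉₊ ≤ R := by omega
  have hR1 : 1 ≤ R := by omega
  have hJ1 : 1 ≤ J := by omega
  have hj0J : j₀ ≤ J := hjR.trans hRJ
  set T : ℝ := (R : ℝ) ^ (2 * Q) with hT
  have hR1' : (1 : ℝ) ≤ R := by exact_mod_cast hR1
  have hT1 : 1 ≤ T := one_le_pow₀ hR1'
  have hT0 : 0 < T := by linarith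
  set len : ℝ := ((CC Q J).card : ℝ) with hlen
  have hlenJ : (J : ℝ) ≤ len := le_CC_card hQ1 hJ1
  have hRJ' : (R : ℝ) ≤ J := by exact_mod_cast hRJ
  have hlenq : 512 * q ≤ len := by
    have h6 : (⌈512 * q⌉₊ : ℝ) + 1 ≤ R := by exact_mod_cast hRq
    have h7 := Nat.le_ceil (512 * q)
    linarith
  have hlenC : C' ≤ len := by
    have h6 : (⌈C'⌉₊ : ℝ) ≤ R := by exact_mod_cast hRC
    have h7 := Nat.le_ceil C'
    linarith
  have hlen0 : 0 < len := by nlinarith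
  set a : ℕ := J ^ (2 * Q) with ha
  set bb : ℕ := (J + 1) ^ (2 * Q) with hbb
  have hlenab : len = (bb : ℝ) - a := CC_card Q J
  set lam : ℝ := ((CC Q R).card : ℝ) * T ^ (-δ) with hlam
  have hlam0 : 0 ≤ lam := by positivity
  have hlamlen : lam ≤ T ^ (-δ) * len := by
    rw [hlam, mul_comm]
    gcongr
    exact CC_card_mono hRJ
  obtain ⟨L, b, z, P⟩ := hPart' J (hRJ₂.trans hRJ)
  have hex : ∀ i, i < L → ∃ p : ℕ, p.Prime ∧ b i < p ∧ p ≤ b (i + 1) := by
    intro i hi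
    by_contra hcon
    have h6 := P.many i hi
    have h7 : ((Ioc (b i) (b (i + 1))).filter Nat.Prime) = ∅ := by
      rw [filter_eq_empty_iff]
      intro p hp hpp
      rw [mem_Ioc] at hp
      exact hcon ⟨p, hpp, hp.1, hp.2⟩
    rw [h7] at h6
    have h8 : (b i : ℝ) < b (i + 1) := by exact_mod_cast P.mono i hi
    simp only [card_empty, Nat.cast_zero, mul_zero] at h6
    linarith
  -- the linear function
  set m : ℕ → ℝ := fun n => α + (β - α) * (((n : ℝ) - a) / len) with hm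
  have hma : m a = α := by rw [hm]; simp
  have hmb : m bb = β := by
    rw [hm]
    simp only
    rw [← hlenab, div_self hlen0.ne']
    ring
  set W : ℕ → ℝ := WW (256 * q) a bb len with hW
  have hW0 : ∀ n, 0 ≤ W n ∧ W n ≤ 1 := fun n => ⟨WW_nonneg _ _ _ _ _, WW_le_one _ _ _ _ _⟩
  have hWl : ∀ n k : ℕ, |W n - W k| ≤ 256 * q * |(n : ℝ) - k| / len := fun n k =>
    WW_lip (by positivity) hlen0 n k
  have hWa : W a = 0 := WW_left (by positivity) hlen0 rfl
  have hWb : W bb = 0 := WW_right (by positivity) hlen0 rfl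
  have hbnd : ∀ i, i ≤ L → a ≤ b i ∧ b i ≤ bb := by
    intro i hi
    constructor
    · exact (le_of_eq P.b0.symm).trans (b_mono P.mono (Nat.zero_le _) hi)
    · exact (b_mono P.mono hi le_rfl).trans (le_of_eq P.bL)
  have hmle : ∀ n : ℕ, a ≤ n → n ≤ bb → |m n| ≤ lam := by
    intro n hn1 hn2
    have h6 : 0 ≤ ((n : ℝ) - a) / len := by
      have : (a : ℝ) ≤ n := by exact_mod_cast hn1
      apply div_nonneg (by linarith) hlen0.le
    have h7 : ((n : ℝ) - a) / len ≤ 1 := by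
      rw [div_le_one hlen0, hlenab]
      have : (n : ℝ) ≤ bb := by exact_mod_cast hn2
      linarith
    exact lin_bound hα hβ h6 h7
  obtain ⟨hAb1, hAb2, hAb3, hAb4⟩ := h4 Q j₀ J L b hQ1 hj1 hj0J P.b0 P.bL P.mono hex m
  have hitp : ∀ n : ℕ, a ≤ n → n < bb → |itp b L m n| ≤ lam := by
    intro n hn1 hn2
    obtain ⟨i, hi, h6, h7⟩ := exists_block (b := b) (L := L) (n := n) (by rw [P.b0]; exact hn1) (by rw [P.bL]; exact hn2)
    obtain ⟨θ, hθ0, hθ1, he⟩ := hAb1 i n hi h6 h7.le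
    have h8 := hmle (b i) (hbnd i hi.le).1 (hbnd i hi.le).2
    have h9 := hmle (b (i + 1)) (hbnd (i + 1) hi).1 (hbnd (i + 1) hi).2
    rw [he]
    exact conv_bound h8 h9 hθ0 hθ1
  obtain ⟨⟨hG1, hG1'⟩, hG2, hG3, hG4, hG5, hG6, hG7⟩ := hGrid J j₀ (hRJ₃.trans hRJ) hj1 hj0J
  have hab : a ≤ bb := Nat.pow_le_pow_left (by omega) _
  have htau : ∀ n : ℕ, a ≤ n → n ≤ bb → 0 ≤ tau j₀ J (vv Q j₀ n) ∧ tau j₀ J (vv Q j₀ n) ≤ 1 := by
    intro n hn1 hn2
    have h6 := (hG2 a n le_rfl hn1 hn2).1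
    have h7 := (hG2 n bb hn1 hn2 le_rfl).1
    rw [hG1] at h6
    rw [hG1'] at h7
    have e1 : 0 ≤ ((n : ℝ) - a) / (2 * len) := by
      have : (a : ℝ) ≤ n := by exact_mod_cast hn1
      apply div_nonneg (by linarith) (by positivity)
    have e2 : 0 ≤ ((bb : ℝ) - n) / (2 * len) := by
      have : (n : ℝ) ≤ bb := by exact_mod_cast hn2
      apply div_nonneg (by linarith) (by positivity)
    constructor <;> linarith
  have hj0' : (0 : ℝ) < j₀ := by exact_mod_cast hj1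
  have hmom : ∀ p : Polynomial ℝ, p.natDegree < 4 * Q + 4 →
      |∑ n ∈ Ico a bb, itp b L m n * gw Q j₀ J p n| ≤ lam * nm (4 * Q + 4) p / j₀ := by
    intro p hp
    have hnm : 0 ≤ nm (4 * Q + 4) p := sum_nonneg fun i _ => abs_nonneg _
    have hterm : ∀ n ∈ Ico a bb, |itp b L m n * gw Q j₀ J p n| ≤
        lam * (1 / (2 * j₀)) * nm (4 * Q + 4) p * (om Q n + C' / len ^ 2) := by
      intro n hn
      rw [mem_Ico] at hn
      have h6 := hG6 p hp n hn.1 hn.2
      have h7 := (hG3 n hn.1 hn.2).1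
      have h8 := htau n hn.1 hn.2.le
      have h9 := (hG7 p hp _ 0 h8.1 h8.2 le_rfl zero_le_one).1
      have h10 : 0 ≤ om Q n := le_trans (by positivity) h7
      have h11 : |2 * j₀ * gw Q j₀ J p n| ≤ nm (4 * Q + 4) p * (om Q n + C' / len ^ 2) := by
        have e1 : 2 * j₀ * gw Q j₀ J p n = (2 * j₀ * gw Q j₀ J p n - om Q n * p.eval (tau j₀ J (vv Q j₀ n))) +
            om Q n * p.eval (tau j₀ J (vv Q j₀ n)) := by ring
        rw [e1]
        refine (abs_add_le _ _).trans ?_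
        rw [abs_mul, abs_of_nonneg h10]
        have e2 : om Q n * |p.eval (tau j₀ J (vv Q j₀ n))| ≤ om Q n * nm (4 * Q + 4) p := by gcongr
        have e3 : C' * nm (4 * Q + 4) p / len ^ 2 = nm (4 * Q + 4) p * (C' / len ^ 2) := by ring
        rw [e3] at h6
        linarith
      have h12 : |gw Q j₀ J p n| = (1 / (2 * j₀)) * |2 * j₀ * gw Q j₀ J p n| := by
        rw [abs_mul, abs_of_pos (by positivity : (0 : ℝ) < 2 * j₀)]
        field_simp
      rw [abs_mul, h12]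
      calc |itp b L m n| * (1 / (2 * (j₀ : ℝ)) * |2 * j₀ * gw Q j₀ J p n|)
          ≤ lam * (1 / (2 * (j₀ : ℝ)) * (nm (4 * Q + 4) p * (om Q n + C' / len ^ 2))) := by
            have := hitp n hn.1 hn.2
            gcongr
        _ = _ := by ring
    refine (abs_sum_le_sum_abs _ _).trans ((sum_le_sum hterm).trans ?_)
    rw [← mul_sum, sum_add_distrib, hG5, sum_const, Nat.card_Ico, nsmul_eq_mul]
    have h6 : ((bb - a : ℕ) : ℝ) = len := by rw [Nat.cast_sub hab, hlenab]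
    rw [h6]
    have h7 : len * (C' / len ^ 2) ≤ 1 := by
      have : len * (C' / len ^ 2) = C' / len := by field_simp
      rw [this, div_le_one hlen0]
      exact hlenC
    calc lam * (1 / (2 * (j₀ : ℝ))) * nm (4 * Q + 4) p * (1 + len * (C' / len ^ 2))
        ≤ lam * (1 / (2 * (j₀ : ℝ))) * nm (4 * Q + 4) p * 2 := by gcongr; linarith
      _ = lam * nm (4 * Q + 4) p / j₀ := by field_simp
  obtain ⟨r, hrdeg, hrnm, hrmom⟩ := hCell' J j₀ (hRJ₁.trans hRJ) hj1 hj0J L b P.b0 P.bL P.mono hex P.short W hW0 hWl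
    hWa hWb (fun x y hx hy hxy hh => WW_count hq1 hlenq x y hx hy hxy hh) m lam hlam0 hmom
  set m' : ℕ → ℝ := fun n => m n + W n * r.eval (tau j₀ J (vv Q j₀ n)) with hm'
  have hm'a : m' a = α := by rw [hm']; simp only; rw [hWa, hma]; ring
  have hm'b : m' bb = β := by rw [hm']; simp only; rw [hWb, hmb]; ring
  obtain ⟨_, hAc2, hAc3, _⟩ := h4 Q j₀ J L b hQ1 hj1 hj0J P.b0 P.bL P.mono hex m'
  refine ⟨blk b L m', hAc3, ?_, ?_, ?_⟩
  · -- size
    apply blk_bound P.mono m' _ (by positivity)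
    intro i hi
    set N : ℝ := (((Ioc (b i) (b (i + 1))).filter Nat.Prime).card : ℝ) with hN
    have hN0 : 0 < N := by
      obtain ⟨p, hp1, hp2, hp3⟩ := hex i hi
      have : 0 < ((Ioc (b i) (b (i + 1))).filter Nat.Prime).card :=
        card_pos.mpr ⟨p, mem_filter.mpr ⟨mem_Ioc.mpr ⟨hp2, hp3⟩, hp1⟩⟩
      rw [hN]; exact_mod_cast this
    set bl : ℝ := (b (i + 1) : ℝ) - b i with hbl
    have hbl0 : 0 < bl := by
      have : (b i : ℝ) < b (i + 1) := by exact_mod_cast P.mono i hi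
      rw [hbl]; linarith
    have hbi := hbnd i hi.le
    have hbi' := hbnd (i + 1) hi
    have hmd : |m (b (i + 1)) - m (b i)| ≤ 2 * lam * (bl / len) := by
      have e : m (b (i + 1)) - m (b i) = (β - α) * (bl / len) := by
        rw [hm, hbl]; simp only; ring
      rw [e, abs_mul, abs_of_pos (div_pos hbl0 hlen0)]
      have : |β - α| ≤ 2 * lam := by
        rw [abs_le] at hα hβ ⊢
        constructor <;> linarith
      gcongr
    have hτ0 := htau (b i) hbi.1 hbi.2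
    have hτ1 := htau (b (i + 1)) hbi'.1 hbi'.2
    have hr1 := (hG7 r hrdeg _ 0 hτ1.1 hτ1.2 le_rfl zero_le_one).1
    have hr2 := (hG7 r hrdeg _ _ hτ1.1 hτ1.2 hτ0.1 hτ0.2).2
    have hτd : |tau j₀ J (vv Q j₀ (b (i + 1))) - tau j₀ J (vv Q j₀ (b i))| ≤ 2 * bl / len := by
      have h6 := hG2 (b i) (b (i + 1)) hbi.1 (P.mono i hi).le hbi'.2
      rw [abs_of_nonneg]
      · exact h6.2
      · refine le_trans ?_ h6.1
        have : 0 ≤ bl / (2 * len) := by positivity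
        exact this
    have hnm0 : 0 ≤ nm (4 * Q + 4) r := sum_nonneg fun i _ => abs_nonneg _
    have hWd := hWl (b (i + 1)) (b i)
    have hbl' : |(b (i + 1) : ℝ) - b i| = bl := abs_of_pos hbl0
    rw [hbl'] at hWd
    have hrd : |W (b (i + 1)) * r.eval (tau j₀ J (vv Q j₀ (b (i + 1)))) - W (b i) * r.eval (tau j₀ J (vv Q j₀ (b i)))| ≤
        (C * (256 * q) + 2 * q * C) * lam * (bl / len) := by
      have e : W (b (i + 1)) * r.eval (tau j₀ J (vv Q j₀ (b (i + 1)))) - W (b i) * r.eval (tau j₀ J (vv Q j₀ (b i))) =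
          (W (b (i + 1)) - W (b i)) * r.eval (tau j₀ J (vv Q j₀ (b (i + 1)))) +
          W (b i) * (r.eval (tau j₀ J (vv Q j₀ (b (i + 1)))) - r.eval (tau j₀ J (vv Q j₀ (b i)))) := by ring
      rw [e]
      refine (abs_add_le _ _).trans ?_
      rw [abs_mul, abs_mul, abs_of_nonneg (hW0 (b i)).1]
      have e1 : |W (b (i + 1)) - W (b i)| * |r.eval (tau j₀ J (vv Q j₀ (b (i + 1))))| ≤
          (256 * q * bl / len) * (C * lam) := by
        have := hr1.trans hrnm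
        gcongr
      have e2 : W (b i) * |r.eval (tau j₀ J (vv Q j₀ (b (i + 1)))) - r.eval (tau j₀ J (vv Q j₀ (b i)))| ≤
          1 * (q * (C * lam) * (2 * bl / len)) := by
        have h7 : |r.eval (tau j₀ J (vv Q j₀ (b (i + 1)))) - r.eval (tau j₀ J (vv Q j₀ (b i)))| ≤
            q * (C * lam) * (2 * bl / len) := by
          refine hr2.trans ?_
          gcongr
        exact mul_le_mul (hW0 (b i)).2 h7 (abs_nonneg _) zero_le_one
      calc _ ≤ (256 * q * bl / len) * (C * lam) + 1 * (q * (C * lam) * (2 * bl / len)) := add_le_add e1 e2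
        _ = _ := by ring
    have hm'd : |m' (b (i + 1)) - m' (b i)| ≤ K * lam * (bl / len) := by
      have e : m' (b (i + 1)) - m' (b i) = (m (b (i + 1)) - m (b i)) +
          (W (b (i + 1)) * r.eval (tau j₀ J (vv Q j₀ (b (i + 1)))) - W (b i) * r.eval (tau j₀ J (vv Q j₀ (b i)))) := by
        rw [hm']; simp only; ring
      rw [e]
      refine (abs_add_le _ _).trans ((add_le_add hmd hrd).trans (le_of_eq ?_))
      rw [hK]; ring
    rw [abs_div, abs_of_pos hN0, div_le_iff₀ hN0]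
    refine hm'd.trans ?_
    have hmany : bl ≤ ((J : ℝ) ^ (2 * Q)) ^ η * N := P.many i hi
    have hJT : (J : ℝ) ^ (2 * Q) ≤ 2 * T := by
      have h6 : J ^ (2 * Q) ≤ 2 * R ^ (2 * Q) := hab.trans hJ
      rw [hT]
      exact_mod_cast h6
    have hJη : ((J : ℝ) ^ (2 * Q)) ^ η ≤ 2 * T ^ η := by
      calc ((J : ℝ) ^ (2 * Q)) ^ η ≤ (2 * T) ^ η := Real.rpow_le_rpow (by positivity) hJT hη0.le
        _ = 2 ^ η * T ^ η := Real.mul_rpow (by norm_num) hT0.le
        _ ≤ 2 * T ^ η := by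
          have : (2 : ℝ) ^ η ≤ 2 ^ (1 : ℝ) := Real.rpow_le_rpow_of_exponent_le (by norm_num) (by linarith)
          rw [Real.rpow_one] at this
          gcongr
    have hKT : 2 * K ≤ T ^ ((δ - δ₁) / 2) := hR₁ R hRR₁
    calc K * lam * (bl / len) ≤ K * (T ^ (-δ) * len) * (((J : ℝ) ^ (2 * Q)) ^ η * N / len) := by gcongr
      _ = K * T ^ (-δ) * ((J : ℝ) ^ (2 * Q)) ^ η * N := by field_simp
      _ ≤ K * T ^ (-δ) * (2 * T ^ η) * N := by gcongr
      _ = (2 * K) * (T ^ (-δ) * T ^ η) * N := by ring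
      _ ≤ T ^ ((δ - δ₁) / 2) * (T ^ (-δ) * T ^ η) * N := by gcongr
      _ = T ^ ((δ - δ₁) / 2 + (-δ + η)) * N := by rw [← Real.rpow_add hT0, ← Real.rpow_add hT0]
      _ ≤ T ^ (-δ₁) * N := by
        gcongr
        linarith
  · rw [hAc2, hm'a, hm'b]
  · intro p hp
    have h6 := hrmom p hp
    rw [hma, hmb] at h6
    exact h6

end Pool.Agent.W55.LV
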